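import Mathlib

/-!
# `ℓ`-adic cohomology of smooth varieties over a finite field

`Theory K q` records the objects and the (known) properties of the `ℓ`-adic cohomology of the smooth
equidimensional varieties over a finite field `k` with `q` elements which are used below; here
`K = ℚ_ℓ` with `ℓ` not dividing `q`.
-/

namespace Pool.Agent.W515.OpenTate

open TensorProduct

/-- Nonempty smooth equidimensional varieties over `k` and their dense open subvarieties. -/
structure Varieties where
  /-- nonempty smooth equidimensional varieties over `k` -/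
  Var : Type
  /-- the dimension -/
  dim : Var → ℕ
  /-- `X` is projective -/
  IsProj : Var → Prop
  /-- `X` is affine -/
  IsAffine : Var → Prop
  /-- isomorphisms of `U` with a dense open subvariety of `X` -/
  Opn : Var → Var → Type
  comp : ∀ {W U X : Var}, Opn W U → Opn U X → Opn W X
  dim_opn : ∀ {U X : Var}, Opn U X → dim U = dim X
  exists_affine : ∀ X : Var, ∃ U : Var, IsAffine U ∧ Nonempty (Opn U X)

/-- Their `ℓ`-adic cohomology groups with Frobenius and the restriction maps. -/
structure Cohomology (K : Type) [Field K] (S : Varieties) where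
  /-- `H X n` is `H^n(X̄, ℚ_ℓ)` -/
  H : S.Var → ℕ → Type
  addCommGroup : ∀ X n, AddCommGroup (H X n)
  module : ∀ X n, Module K (H X n)
  finite : ∀ X n, Module.Finite K (H X n)
  /-- the geometric Frobenius on `H^n(X̄, ℚ_ℓ)` -/
  F : ∀ X n, Module.End K (H X n)
  /-- restriction to a dense open subvariety -/
  res : ∀ {U X : S.Var}, S.Opn U X → ∀ n, H X n →ₗ[K] H U n
  res_F : ∀ {U X : S.Var} (j : S.Opn U X) n x, res j n (F X n x) = F U n (res j n x)
  res_comp : ∀ {W U X : S.Var} (i : S.Opn W U) (j : S.Opn U X) n x,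
    res (S.comp i j) n x = res i n (res j n x)

attribute [instance] Cohomology.addCommGroup Cohomology.module Cohomology.finite

section

variable {K : Type} [Field K] {S : Varieties}

/-- Frobenius applied to an element. -/
def Cohomology.fr (C : Cohomology K S) {X : S.Var} {n : ℕ} (x : C.H X n) : C.H X n := C.F X n x

/-- `f` is Frobenius equivariant up to the scalar `s`. -/
def Cohomology.Equi (C : Cohomology K S) (s : K) {X Y : S.Var} {n m : ℕ}
    (f : C.H X n →ₗ[K] C.H Y m) : Prop := ∀ x, C.fr (f x) = s • f (C.fr x)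

/-- Injectivity of a linear map. -/
def Cohomology.Inj (C : Cohomology K S) {X Y : S.Var} {n m : ℕ}
    (f : C.H X n →ₗ[K] C.H Y m) : Prop := ∀ x, f x = 0 → x = 0

/-- Chow groups and the cycle class maps. -/
structure Cycles [CharZero K] (C : Cohomology K S) where
  /-- `CH X i` is the Chow group of cycles of codimension `i` with rational coefficients -/
  CH : S.Var → ℕ → Type
  addCommGroup : ∀ X i, AddCommGroup (CH X i)
  module : ∀ X i, Module ℚ (CH X i)
  /-- the cycle class map `c^i : CH^i(X) ⊗ ℚ_ℓ → H^{2i}(X̄, ℚ_ℓ)` -/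
  c : ∀ X i, K ⊗[ℚ] CH X i →ₗ[K] C.H X (2 * i)

attribute [instance] Cycles.addCommGroup Cycles.module

section

variable [CharZero K] {C : Cohomology K S} (Z : Cycles C)

/-- The space of algebraic classes, the image of `c^i`. -/
def Cycles.alg (X : S.Var) (i : ℕ) : Submodule K (C.H X (2 * i)) := LinearMap.range (Z.c X i)

/-- The class of an element of the Chow group. -/
def Cycles.cl {X : S.Var} {i : ℕ} (z : Z.CH X i) : C.H X (2 * i) := Z.c X i (1 ⊗ₜ z)

/-- Algebraic classes are Frobenius invariant. The twist by `i` multiplies the geometric Frobenius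
by `q^{-i}`, so that the Frobenius invariants in `H^{2i}(X̄, ℚ_ℓ(i))` are the `x` with
`F x = q ^ i x`. -/
def Cycles.IsInvariant (q : ℕ) : Prop :=
  ∀ X i, Z.alg X i ≤ (C.F X (2 * i)).eigenspace ((q : K) ^ i)

/-- The class of a cycle of positive codimension vanishes on the complement of its support. -/
def Cycles.Vanish : Prop := ∀ X i, 1 ≤ i → ∀ x ∈ Z.alg X i,
  ∃ (U : S.Var) (j : S.Opn U X), C.res j (2 * i) x = 0

/-- Cycles can be restricted to open subvarieties. -/
def Cycles.Restrict : Prop := ∀ {U X : S.Var} (j : S.Opn U X) i, ∀ x ∈ Z.alg X i,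
  C.res j (2 * i) x ∈ Z.alg U i

end

/-- The cup product pairings. -/
structure Pairing (C : Cohomology K S) where
  pair : ∀ Y n m, C.H Y n →ₗ[K] C.H Y m →ₗ[K] K

/-- The value of the pairing. -/
def Pairing.ev {C : Cohomology K S} (P : Pairing C) {Y : S.Var} {n m : ℕ} (x : C.H Y n)
    (y : C.H Y m) : K := P.pair Y n m x y

/-- For smooth projective `Y` the pairing `H^n × H^m → H^{2 dim Y} = ℚ_ℓ(-dim Y)` is Frobenius
equivariant. -/
def Pairing.IsEqui {C : Cohomology K S} (P : Pairing C) (q : ℕ) : Prop :=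
  ∀ (Y : S.Var) (n m : ℕ), S.IsProj Y → n + m = 2 * S.dim Y → ∀ (x : C.H Y n) (y : C.H Y m),
    P.ev (C.fr x) (C.fr y) = (q : K) ^ S.dim Y * P.ev x y

/-- Poincaré duality. -/
def Pairing.IsPerfect {C : Cohomology K S} (P : Pairing C) : Prop :=
  ∀ (Y : S.Var) (n m : ℕ), S.IsProj Y → n + m = 2 * S.dim Y →
    (∀ x : C.H Y n, (∀ y : C.H Y m, P.ev x y = 0) → x = 0) ∧
    ∀ y : C.H Y m, (∀ x : C.H Y n, P.ev x y = 0) → y = 0

/-- `f n : H X n → H X' n` is injective, Frobenius equivariant and detects algebraic classes. -/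
def Detects [CharZero K] {C : Cohomology K S} (Z : Cycles C) {X X' : S.Var}
    (f : ∀ n, C.H X n →ₗ[K] C.H X' n) : Prop :=
  (∀ n, C.Inj (f n)) ∧ (∀ n, C.Equi 1 (f n)) ∧ ∀ i x, f (2 * i) x ∈ Z.alg X' i → x ∈ Z.alg X i

/-- Every `X` is dominated by a smooth variety `X'` with a smooth projective compactification `Y`
(de Jong's alterations); the inverse image is injective on cohomology, by the projection formula,
and detects the classes of cycles. -/
def HasAlterations [CharZero K] {C : Cohomology K S} (Z : Cycles C) : Prop :=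
  ∀ X, ∃ X' Y : S.Var, S.IsProj Y ∧ Nonempty (S.Opn X' Y) ∧
    ∃ f : ∀ n, C.H X n →ₗ[K] C.H X' n, Detects Z f

/-- Weights (Deligne): the generalised eigenvectors of weight `2 i` in `H^{2i}` of a dense open
subvariety extend to a smooth projective compactification. -/
def HasWeights (q : ℕ) (C : Cohomology K S) : Prop :=
  ∀ {U Y : S.Var} (j : S.Opn U Y), S.IsProj Y → ∀ i,
    ∀ x ∈ (C.F U (2 * i)).maxGenEigenspace ((q : K) ^ i), ∃ y, C.res j (2 * i) y = x

/-- Weights and alterations: a class on `Y` which vanishes on a dense open subvariety is a Gysin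
image of a class on a smooth projective variety of dimension one less. -/
def HasGysin (q : ℕ) (C : Cohomology K S) : Prop :=
  ∀ {U Y : S.Var} (j : S.Opn U Y) (d n : ℕ), S.IsProj Y → S.dim Y = d + 1 →
    ∃ D : S.Var, S.IsProj D ∧ S.dim D = d ∧ ∃ γ : C.H D n →ₗ[K] C.H Y (n + 2),
      C.Equi (q : K) γ ∧ ∀ y, C.res j (n + 2) y = 0 → ∃ x, γ x = y

/-- Weak Lefschetz theorem for a smooth hypersurface section. -/
def HasLefschetz (C : Cohomology K S) : Prop :=
  ∀ (Y : S.Var) (d : ℕ), S.IsProj Y → S.dim Y = d + 1 →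
    ∃ Y' : S.Var, S.IsProj Y' ∧ S.dim Y' = d ∧ ∀ n, n ≤ d → ∃ f : C.H Y n →ₗ[K] C.H Y' n,
      C.Inj f ∧ C.Equi 1 f

/-- `κ` is bilinear, `κ (F x, F' y) = F (κ (x, y))`, and the induced map from the tensor product is
injective. -/
def KunnethMap (C : Cohomology K S) {Y Y' Z : S.Var} {n m : ℕ}
    (κ : C.H Y n →ₗ[K] C.H Y' m →ₗ[K] C.H Z (n + m)) : Prop :=
  Function.Injective (TensorProduct.lift κ) ∧ ∀ x y, C.fr (κ x y) = κ (C.fr x) (C.fr y)

/-- Künneth theorem for the product of two smooth projective varieties. -/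
def HasKunneth (C : Cohomology K S) : Prop :=
  ∀ Y Y' : S.Var, S.IsProj Y → S.IsProj Y' → ∃ Z : S.Var, S.IsProj Z ∧
    S.dim Z = S.dim Y + S.dim Y' ∧ ∀ n m,
      ∃ κ : C.H Y n →ₗ[K] C.H Y' m →ₗ[K] C.H Z (n + m), KunnethMap C κ

/-- A power of Frobenius is the identity on `H^0`. -/
def FiniteOrderOnZero (C : Cohomology K S) : Prop := ∀ X, ∃ m, 0 < m ∧ C.F X 0 ^ m = 1

/-- The cohomology of `Y` vanishes in degrees above `2 dim Y`. -/
def HasDimension (C : Cohomology K S) : Prop :=
  ∀ Y n, S.IsProj Y → 2 * S.dim Y < n → ∀ x : C.H Y n, x = 0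

end

/-- The `ℓ`-adic cohomology of smooth equidimensional varieties over a finite field. -/
structure Theory (K : Type) [Field K] [CharZero K] (q : ℕ) where
  S : Varieties
  C : Cohomology K S
  Z : Cycles C
  P : Pairing C
  invariant : Z.IsInvariant q
  cycleVanish : Z.Vanish
  restrict : Z.Restrict
  equi : P.IsEqui q
  perfect : P.IsPerfect
  finiteOrder : FiniteOrderOnZero C
  alteration : HasAlterations Z
  weights : HasWeights q C
  gysin : HasGysin q C
  lefschetz : HasLefschetz C
  kunneth : HasKunneth C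
  dimension : HasDimension C

variable {K : Type} [Field K] [CharZero K] {q : ℕ} (T : Theory K q)

/-- Surjectivity of `c^i : CH^i(X) ⊗ ℚ_ℓ → H^{2i}(X̄, ℚ_ℓ(i))^{G_k}`. -/
def Theory.Surj (X : T.S.Var) (i : ℕ) : Prop :=
  (T.C.F X (2 * i)).eigenspace ((q : K) ^ i) ≤ T.Z.alg X i

/-- Bijectivity of `c^i : CH^i(X) ⊗ ℚ_ℓ → H^{2i}(X̄, ℚ_ℓ(i))^{G_k}`. -/
def Theory.Bij (X : T.S.Var) (i : ℕ) : Prop :=
  Function.Injective (T.Z.c X i) ∧ T.Surj X i

/-- The eigenvalue `1` of Frobenius on `H^{2i}(X̄, ℚ_ℓ(i))` is semisimple. -/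
def Theory.SemisimpleAtOne (X : T.S.Var) (i : ℕ) : Prop :=
  (T.C.F X (2 * i)).maxGenEigenspace ((q : K) ^ i) = (T.C.F X (2 * i)).eigenspace ((q : K) ^ i)

/-- The generalised eigenspace of the eigenvalue `1` on `H^{2i}(X̄, ℚ_ℓ(i))` is the image of
`CH^i(X) ⊗ ℚ_ℓ`. -/
def Theory.SpannedByCycles (X : T.S.Var) (i : ℕ) : Prop :=
  (T.C.F X (2 * i)).maxGenEigenspace ((q : K) ^ i) = T.Z.alg X i

/-- The multiplicity of the eigenvalue `1` of Frobenius on `H^{2i}(X̄, ℚ_ℓ(i))`, that is, the order of
vanishing of `det(1 - Frob t | H^{2i}(X̄, ℚ_ℓ(i)))` at `t = 1`. -/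
noncomputable def Theory.order (X : T.S.Var) (i : ℕ) : ℕ :=
  (T.C.F X (2 * i)).charpoly.rootMultiplicity ((q : K) ^ i)

/-- On smooth affine varieties of dimension `2 i` all Frobenius invariant classes in
`H^{2i}(X̄, ℚ_ℓ(i))` vanish on some dense open subvariety. -/
def Theory.GenericVanishing (i : ℕ) : Prop :=
  ∀ X : T.S.Var, T.S.IsAffine X → T.S.dim X = 2 * i →
    ∀ x ∈ (T.C.F X (2 * i)).eigenspace ((q : K) ^ i),
      ∃ (U : T.S.Var) (j : T.S.Opn U X), T.C.res j (2 * i) x = 0

/-- Surjectivity of all `c^i` for smooth projective varieties. -/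
def Theory.SurjProj : Prop := ∀ Y : T.S.Var, T.S.IsProj Y → ∀ i, T.Surj Y i

/-- Surjectivity of `c^i` for smooth affine varieties of dimension `2 i ≥ 2`. -/
def Theory.SurjAffine : Prop :=
  ∀ i, 1 ≤ i → ∀ X : T.S.Var, T.S.IsAffine X → T.S.dim X = 2 * i → T.Surj X i

/-- Frobenius is semisimple on the cohomology of all smooth projective varieties. -/
def Theory.ProjSemisimple : Prop :=
  ∀ Y : T.S.Var, T.S.IsProj Y → ∀ n, (T.C.F Y n).IsSemisimple

/-- `z` is numerically equivalent to zero: its intersection numbers with all cycles of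
codimension `j` (the complementary one) are zero. -/
def Theory.NumTrivial {Y : T.S.Var} {i : ℕ} (z : T.Z.CH Y i) (j : ℕ) : Prop :=
  ∀ w : T.Z.CH Y j, T.P.ev (T.Z.cl z) (T.Z.cl w) = 0

end Pool.Agent.W515.OpenTate
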