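import Mathlib

/-! Linear algebra for the theorem on Frobenius semisimplicity. -/

namespace Pool.Agent.W515.OpenTate

open Module TensorProduct

variable {K : Type*} [Field K]

section Transfer

variable {V W : Type*} [AddCommGroup V] [Module K V] [AddCommGroup W] [Module K W]
  [FiniteDimensional K V] [FiniteDimensional K W]

omit [FiniteDimensional K V] in
theorem ker_pow_of_sq {T : V →ₗ[K] V} (h : ∀ x, T (T x) = 0 → T x = 0) (n : ℕ) (x : V)
    (hx : (T ^ n) x = 0) : n = 0 ∨ T x = 0 := by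
  induction n with
  | zero => exact Or.inl rfl
  | succ n ih =>
    right
    rcases Nat.eq_zero_or_pos n with rfl | hn
    · simpa using hx
    · obtain ⟨m, rfl⟩ : ∃ m, n = m + 1 := ⟨n - 1, by omega⟩
      have h1 : T (T ((T ^ m) x)) = 0 := by
        rw [pow_succ', pow_succ'] at hx
        exact hx
      have h2 := h _ h1
      have h3 : (T ^ (m + 1)) x = 0 := by
        rw [pow_succ']
        exact h2
      exact (ih h3).resolve_left (by omega)

/-- Projection on the generalised kernel. -/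
theorem transfer_aux (T : V →ₗ[K] V) (S : W →ₗ[K] W) (γ : V →ₗ[K] W) (c : K) (hc : c ≠ 0)
    (hγ : ∀ x, S (γ x) = c • γ (T x)) (N : ℕ) (y : V) (hN : (S ^ N) (γ y) = 0) :
    ∃ (M : ℕ) (y' : V), (T ^ M) y' = 0 ∧ 0 < M ∧ γ y' = γ y := by
  have hpow : ∀ n x, (S ^ n) (γ x) = c ^ n • γ ((T ^ n) x) := by
    intro n
    induction n with
    | zero => intro x; simp
    | succ n ih =>
      intro x
      rw [pow_succ, Module.End.mul_apply, hγ, map_smul, ih, smul_smul, pow_succ T,
        Module.End.mul_apply, pow_succ, mul_comm]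
  obtain ⟨n1, h1⟩ := Filter.eventually_atTop.1 (LinearMap.eventually_isCompl_ker_pow_range_pow T)
  obtain ⟨n2, h2⟩ := Filter.eventually_atTop.1 (LinearMap.eventually_isCompl_ker_pow_range_pow S)
  obtain ⟨M, hM⟩ : ∃ M, M = n1 + n2 + N + 1 := ⟨_, rfl⟩
  have hT := h1 M (by omega)
  have hS := h2 M (by omega)
  obtain ⟨y1, hy1, y2, hy2, hy⟩ := Submodule.mem_sup.1 (hT.sup_eq_top ▸ Submodule.mem_top : y ∈ _)
  refine ⟨M, y1, hy1, by omega, ?_⟩
  have e1 : γ y2 ∈ LinearMap.range (S ^ M) := by
    obtain ⟨z, rfl⟩ := hy2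
    refine ⟨(c ^ M)⁻¹ • γ z, ?_⟩
    rw [map_smul, hpow, smul_smul, inv_mul_cancel₀ (pow_ne_zero _ hc), one_smul]
  have e2 : (S ^ M) (γ y1) = 0 := by
    rw [hpow]
    rw [LinearMap.mem_ker] at hy1
    rw [hy1, map_zero, smul_zero]
  have e3 : (S ^ M) (γ y) = 0 := by
    have : M = (M - N) + N := by omega
    rw [this, pow_add, Module.End.mul_apply, hN, map_zero]
  have e4 : γ y2 = 0 := by
    have : γ y2 ∈ LinearMap.ker (S ^ M) ⊓ LinearMap.range (S ^ M) := by
      refine ⟨LinearMap.mem_ker.2 ?_, e1⟩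
      have : γ y = γ y1 + γ y2 := by rw [← map_add, hy]
      rw [this, map_add, e2, zero_add] at e3
      exact e3
    rw [hS.inf_eq_bot] at this
    exact (Submodule.mem_bot K).1 this
  rw [← hy, map_add, e4, add_zero]

/-- If the generalised kernel of `T` is its kernel, elements of the image of `γ` which are killed by
a power of `S` are images of elements killed by `T`. -/
theorem transfer (T : V →ₗ[K] V) (S : W →ₗ[K] W) (γ : V →ₗ[K] W) (c : K) (hc : c ≠ 0)
    (hγ : ∀ x, S (γ x) = c • γ (T x)) (hT : ∀ x, T (T x) = 0 → T x = 0) (N : ℕ) (y : V)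
    (hN : (S ^ N) (γ y) = 0) : ∃ y', T y' = 0 ∧ γ y' = γ y := by
  obtain ⟨M, y', h1, h2, h3⟩ := transfer_aux T S γ c hc hγ N y hN
  exact ⟨y', (ker_pow_of_sq hT M y' h1).resolve_left (by omega), h3⟩

end Transfer

section Trace

variable {V : Type*} [AddCommGroup V] [Module K V] [FiniteDimensional K V]

theorem trace_rank_one (l : Dual K V) (v : V) :
    LinearMap.trace K V (dualTensorHom K V V (l ⊗ₜ v)) = l v := by
  rw [LinearMap.trace_eq_contract_apply, contractLeft_apply]

theorem eq_zero_of_trace (ψ : Module.End K V)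
    (h : ∀ φ : Module.End K V, LinearMap.trace K V (ψ * φ) = 0) : ψ = 0 := by
  ext v
  rw [LinearMap.zero_apply]
  refine (Module.forall_dual_apply_eq_zero_iff K (ψ v)).1 fun l => ?_
  have h1 := h (dualTensorHom K V V (l ⊗ₜ v))
  have h2 : ψ * dualTensorHom K V V (l ⊗ₜ v) = dualTensorHom K V V (l ⊗ₜ ψ v) := by
    ext x
    simp [dualTensorHom_apply]
  rw [h2, trace_rank_one] at h1
  exact h1

theorem exists_trace (l : Dual K (Module.End K V)) :
    ∃ ψ : Module.End K V, ∀ φ, l φ = LinearMap.trace K V (ψ * φ) := by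
  let B : Module.End K V →ₗ[K] Dual K (Module.End K V) :=
    LinearMap.mk₂ K (fun ψ φ => LinearMap.trace K V (ψ * φ))
      (by intro a b c; simp [add_mul]) (by intro a b c; simp)
      (by intro a b c; simp [mul_add]) (by intro a b c; simp)
  have hB : ∀ ψ φ, B ψ φ = LinearMap.trace K V (ψ * φ) := fun _ _ => rfl
  have hinj : Function.Injective B := by
    rw [← LinearMap.ker_eq_bot, LinearMap.ker_eq_bot']
    intro ψ h
    exact eq_zero_of_trace ψ fun φ => by rw [← hB, h]; rfl
  have hsurj := (LinearMap.injective_iff_surjective_of_finrank_eq_finrank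
    (Subspace.dual_finrank_eq (K := K) (V := Module.End K V)).symm).1 hinj
  obtain ⟨ψ, hψ⟩ := hsurj l
  exact ⟨ψ, fun φ => by rw [← hψ, hB]⟩

theorem isSemisimple_of_ad [CharZero K] (F : Module.End K V)
    (h : ∀ φ : Module.End K V, F * (F * φ - φ * F) = (F * φ - φ * F) * F → F * φ = φ * F) :
    F.IsSemisimple := by
  obtain ⟨n, hn, s, hs, hnil, hss, hF⟩ := F.exists_isNilpotent_isSemisimple
  suffices hn0 : n = 0 by
    rw [hF, hn0, zero_add]
    exact hss
  have hcomm : ∀ ψ : Module.End K V, F * ψ = ψ * F → Commute ψ n := by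
    intro ψ hψ
    have h1 : n ∈ Subalgebra.centralizer K {ψ} := by
      refine (Algebra.adjoin_le ?_ : Algebra.adjoin K {F} ≤ _) hn
      rintro x rfl
      rw [SetLike.mem_coe, Subalgebra.mem_centralizer_iff]
      rintro y rfl
      exact hψ.symm
    exact (Subalgebra.mem_centralizer_iff K).1 h1 ψ rfl
  have hrange : ∃ φ : Module.End K V, F * φ - φ * F = n := by
    let A : Module.End K V →ₗ[K] Module.End K V :=
      LinearMap.mulLeft K F - LinearMap.mulRight K F
    have hA : ∀ φ, A φ = F * φ - φ * F := fun φ => rfl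
    by_contra hcon
    have h1 : n ∉ LinearMap.range A := by
      rintro ⟨φ, hφ⟩
      exact hcon ⟨φ, by rw [← hA, hφ]⟩
    obtain ⟨l, hl1, hl2⟩ := Submodule.exists_le_ker_of_notMem h1
    obtain ⟨ψ, hψ⟩ := exists_trace l
    have h2 : F * ψ = ψ * F := by
      have h3 : ψ * F - F * ψ = 0 := by
        apply eq_zero_of_trace
        intro φ
        have h4 : l (A φ) = 0 := hl2 ⟨φ, rfl⟩
        rw [hψ, hA] at h4
        rw [← h4, mul_sub, sub_mul, map_sub, map_sub, mul_assoc ψ F φ]
        congr 1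
        rw [mul_assoc F ψ φ, LinearMap.trace_mul_comm K F (ψ * φ), mul_assoc]
      exact (sub_eq_zero.1 h3).symm
    have h5 : l n = 0 := by
      rw [hψ]
      have h6 : IsNilpotent (ψ * n) := (hcomm ψ h2).isNilpotent_mul_left hnil
      exact (LinearMap.isNilpotent_trace_of_isNilpotent h6).eq_zero
    exact hl1 h5
  obtain ⟨φ, hφ⟩ := hrange
  have h7 := h φ (by
    rw [hφ]
    exact (hcomm F rfl).eq)
  rw [← hφ, h7, sub_self]

end Trace

end Pool.Agent.W515.OpenTate
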