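import Mathlib
import Pool.Agent.W515.OpenTate.Lin
import Pool.Agent.W515.OpenTate.Defs

namespace Pool.Agent.W515.OpenTate

open Module TensorProduct

section

variable {K : Type*} [Field K] {V W : Type*} [AddCommGroup V] [Module K V] [AddCommGroup W]
  [Module K W] [FiniteDimensional K V] [FiniteDimensional K W]

/-- The generalised eigenspace of `μ` is the eigenspace. -/
def SS (F : Module.End K V) (μ : K) : Prop := F.maxGenEigenspace μ = F.eigenspace μ

omit [FiniteDimensional K V] in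
theorem SS.sq {F : Module.End K V} {μ : K} (h : SS F μ) (x : V)
    (hx : (F - μ • 1) ((F - μ • 1) x) = 0) : (F - μ • 1) x = 0 := by
  have h1 : x ∈ F.maxGenEigenspace μ := by
    rw [Module.End.mem_maxGenEigenspace]
    exact ⟨2, by rw [pow_two]; exact hx⟩
  rw [h] at h1
  rw [Module.End.mem_eigenspace_iff] at h1
  simp [h1]

omit [FiniteDimensional K V] in
theorem SS.of_sq {F : Module.End K V} {μ : K}
    (h : ∀ x, (F - μ • 1) ((F - μ • 1) x) = 0 → (F - μ • 1) x = 0) : SS F μ := by
  refine le_antisymm ?_ ?_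
  · intro x hx
    obtain ⟨k, hk⟩ := (Module.End.mem_maxGenEigenspace F μ x).1 hx
    rw [Module.End.mem_eigenspace_iff]
    rcases ker_pow_of_sq (T := F - μ • 1) h k x hk with rfl | h1
    · have : x = 0 := by simpa using hk
      simp [this]
    · have h2 : F x - μ • x = 0 := by simpa using h1
      exact sub_eq_zero.1 h2
  · intro x hx
    rw [Module.End.mem_eigenspace_iff] at hx
    rw [Module.End.mem_maxGenEigenspace]
    exact ⟨1, by simp [hx]⟩

theorem gen_transfer {Fv : Module.End K V} {Fw : Module.End K W} (γ : V →ₗ[K] W) {c μ : K}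
    (hc : c ≠ 0) (hγ : ∀ x, Fw (γ x) = c • γ (Fv x)) (hss : SS Fv μ) (y : V)
    (hy : γ y ∈ Fw.maxGenEigenspace (c * μ)) : ∃ y', Fv y' = μ • y' ∧ γ y' = γ y := by
  obtain ⟨k, hk⟩ := (Module.End.mem_maxGenEigenspace Fw _ _).1 hy
  obtain ⟨y', h1, h2⟩ := transfer (Fv - μ • 1) (Fw - (c * μ) • 1) γ c hc (fun x => by
    have : (Fw - (c * μ) • 1) (γ x) = Fw (γ x) - (c * μ) • γ x := by simp
    rw [this, hγ]
    have : (Fv - μ • 1) x = Fv x - μ • x := by simp
    rw [this, map_sub, map_smul, smul_sub, smul_smul]) hss.sq k y hk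
  refine ⟨y', ?_, h2⟩
  have h3 : Fv y' - μ • y' = 0 := by simpa using h1
  exact sub_eq_zero.1 h3

omit [FiniteDimensional K V] [FiniteDimensional K W] in
theorem SS.of_injective {Fv : Module.End K V} {Fw : Module.End K W} (f : V →ₗ[K] W)
    (hf : Function.Injective f) (hF : ∀ x, f (Fv x) = Fw (f x)) {μ : K} (h : SS Fw μ) :
    SS Fv μ := by
  refine SS.of_sq fun x hx => ?_
  have h1 : ∀ x, f ((Fv - μ • 1) x) = (Fw - μ • 1) (f x) := by
    intro x
    simp [hF]
  apply hf
  rw [map_zero, h1]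
  apply h.sq
  rw [← h1, ← h1, hx, map_zero]

/-- From the tensor product `V ⊗ V'` with a perfect pairing to the endomorphisms of `V`. -/
theorem isSemisimple_of_tensor [CharZero K] {F : Module.End K V} {F' : Module.End K W}
    (P : V →ₗ[K] W →ₗ[K] K) {Q : K} (hQ : Q ≠ 0) (hP : ∀ x y, P (F x) (F' y) = Q * P x y)
    (hl : ∀ x, (∀ y, P x y = 0) → x = 0) (hr : ∀ y, (∀ x, P x y = 0) → y = 0)
    (h : SS (TensorProduct.map F F' : Module.End K (V ⊗[K] W)) Q) : F.IsSemisimple := by
  -- `F` is invertible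
  have hinj : Function.Injective F := by
    rw [← LinearMap.ker_eq_bot, LinearMap.ker_eq_bot']
    intro x hx
    apply hl
    intro y
    have hF' : Function.Surjective F' := by
      rw [← LinearMap.injective_iff_surjective, ← LinearMap.ker_eq_bot, LinearMap.ker_eq_bot']
      intro y hy
      apply hr
      intro x
      have h1 := hP x y
      rw [hy, map_zero] at h1
      exact (mul_eq_zero.1 h1.symm).resolve_left hQ
    have h1 := hP x y
    rw [hx, map_zero, LinearMap.zero_apply] at h1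
    exact (mul_eq_zero.1 h1.symm).resolve_left hQ
  have hsurj : Function.Surjective F := LinearMap.injective_iff_surjective.1 hinj
  -- the map to endomorphisms
  let e : V ⊗[K] W →ₗ[K] Module.End K V :=
    TensorProduct.lift (LinearMap.mk₂ K (fun v w => (LinearMap.smulRight (P.flip w) v : Module.End K V))
      (by intro a b c; ext x; simp) (by intro a b c; ext x; simp [smul_smul, mul_comm])
      (by intro a b c; ext x; simp [add_smul]) (by intro a b c; ext x; simp [mul_smul]))
  have he : ∀ v w x, e (v ⊗ₜ w) x = P x w • v := fun v w x => rfl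
  -- surjectivity of `e`
  have hdual : Function.Surjective P.flip := by
    have hi : Function.Injective P.flip := by
      rw [← LinearMap.ker_eq_bot, LinearMap.ker_eq_bot']
      intro y hy
      exact hr y fun x => by rw [← LinearMap.flip_apply, hy]; rfl
    have hi2 : Function.Injective P := by
      rw [← LinearMap.ker_eq_bot, LinearMap.ker_eq_bot']
      intro x hx
      exact hl x fun y => by rw [hx]; rfl
    have h1 : finrank K W ≤ finrank K V := by
      rw [← Subspace.dual_finrank_eq (K := K) (V := V)]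
      exact LinearMap.finrank_le_finrank_of_injective hi
    have h2 : finrank K V ≤ finrank K W := by
      rw [← Subspace.dual_finrank_eq (K := K) (V := W)]
      exact LinearMap.finrank_le_finrank_of_injective hi2
    have h3 : finrank K W = finrank K (Dual K V) := by
      rw [Subspace.dual_finrank_eq]
      exact le_antisymm h1 h2
    exact (LinearMap.injective_iff_surjective_of_finrank_eq_finrank h3).1 hi
  have hesurj : Function.Surjective e := by
    intro φ
    let b := Module.finBasis K V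
    choose w hw using fun i => hdual (b.coord i)
    refine ⟨∑ i, φ (b i) ⊗ₜ w i, ?_⟩
    rw [map_sum]
    apply b.ext
    intro j
    rw [LinearMap.sum_apply]
    rw [Finset.sum_eq_single j]
    · rw [he, ← LinearMap.flip_apply, hw]
      simp
    · intro i _ hij
      rw [he, ← LinearMap.flip_apply, hw]
      simp [hij.symm]
    · intro h
      exact absurd (Finset.mem_univ j) h
  have heinj : ∀ t, e t = 0 → t = 0 := by
    have hfin : finrank K (V ⊗[K] W) = finrank K (Module.End K V) := by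
      have h3 : finrank K W = finrank K V := by
        have hi : Function.Injective P.flip := by
          rw [← LinearMap.ker_eq_bot, LinearMap.ker_eq_bot']
          intro y hy
          exact hr y fun x => by rw [← LinearMap.flip_apply, hy]; rfl
        have := (LinearEquiv.ofBijective P.flip ⟨hi, hdual⟩).finrank_eq
        rw [this, Subspace.dual_finrank_eq]
      rw [finrank_tensorProduct, h3, Module.finrank_linearMap]
    intro t ht
    exact ((LinearMap.injective_iff_surjective_of_finrank_eq_finrank hfin).2 hesurj)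
      (by rw [ht, map_zero])
  have hcomm : ∀ t, e (TensorProduct.map F F' t) * F = Q • (F * e t) := by
    intro t
    induction t using TensorProduct.induction_on with
    | zero => simp
    | tmul v w =>
      ext x
      rw [Module.End.mul_apply, TensorProduct.map_tmul, he, hP, LinearMap.smul_apply,
        Module.End.mul_apply, he, map_smul, smul_smul]
    | add a b ha hb =>
      rw [map_add, map_add, add_mul, ha, hb, map_add, mul_add, smul_add]
  -- `e ((M - Q) t) * F = Q • [F, e t]`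
  have hcomm2 : ∀ t, e ((TensorProduct.map F F' - Q • 1) t) * F = Q • (F * e t - e t * F) := by
    intro t
    have : (TensorProduct.map F F' - Q • 1) t = TensorProduct.map F F' t - Q • t := by simp
    rw [this, map_sub, map_smul, sub_mul, hcomm, smul_sub, smul_mul_assoc]
  apply isSemisimple_of_ad
  intro φ hφ
  obtain ⟨t, rfl⟩ := hesurj φ
  have hcancel : ∀ A B : Module.End K V, A * F = B * F → A = B := by
    intro A B hAB
    ext x
    obtain ⟨y, rfl⟩ := hsurj x
    exact LinearMap.congr_fun hAB y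
  have key : (TensorProduct.map F F' - Q • 1) ((TensorProduct.map F F' - Q • 1) t) = 0 := by
    apply heinj
    apply hcancel
    rw [hcomm2, zero_mul]
    have h1 := hcomm2 t
    set s := e ((TensorProduct.map F F' - Q • 1) t)
    have h2 : F * s = s * F := by
      apply hcancel
      rw [mul_assoc F s F, h1, mul_smul_comm, hφ, ← smul_mul_assoc, ← h1]
    rw [h2, sub_self, smul_zero]
  have h3 := h.sq t key
  have h4 := hcomm2 t
  rw [h3, map_zero, zero_mul] at h4
  have h5 := (smul_eq_zero.1 h4.symm).resolve_left hQ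
  exact sub_eq_zero.1 h5

end

section

variable {K : Type} [Field K] [CharZero K] {q : ℕ} (T : Theory K q)

/-- smooth varieties over `k` -/
abbrev Theory.Var : Type := T.S.Var

/-- cohomology -/
abbrev Theory.H (X : T.Var) (n : ℕ) : Type := T.C.H X n

/-- Frobenius -/
abbrev Theory.F (X : T.Var) (n : ℕ) : Module.End K (T.H X n) := T.C.F X n

/-- The map `c^i : CH^i(X) ⊗ ℚ_ℓ → H^{2i}(X̄, ℚ_ℓ)`. -/
abbrev Theory.c (X : T.Var) (i : ℕ) : K ⊗[ℚ] T.Z.CH X i →ₗ[K] T.H X (2 * i) := T.Z.c X i

/-- `x` is a Frobenius invariant element of `H^{2i}(X̄, ℚ_ℓ(i))`. -/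
def Theory.Invariant {X : T.Var} {i : ℕ} (x : T.H X (2 * i)) : Prop :=
  T.F X (2 * i) x = (q : K) ^ i • x

theorem Theory.F_c (X : T.Var) (i : ℕ) (z : K ⊗[ℚ] T.Z.CH X i) :
    T.F X (2 * i) (T.c X i z) = (q : K) ^ i • T.c X i z :=
  Module.End.mem_eigenspace_iff.1 (T.invariant X i ⟨z, rfl⟩)

theorem Theory.c_vanish (X : T.Var) (i : ℕ) (hi : 1 ≤ i) (z : K ⊗[ℚ] T.Z.CH X i) :
    ∃ (U : T.Var) (j : T.S.Opn U X), T.C.res j (2 * i) (T.c X i z) = 0 :=
  T.cycleVanish X i hi _ ⟨z, rfl⟩

theorem Theory.c_res {U X : T.Var} (j : T.S.Opn U X) (i : ℕ) (z : K ⊗[ℚ] T.Z.CH X i) :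
    T.C.res j (2 * i) (T.c X i z) ∈ LinearMap.range (T.c U i) :=
  T.restrict j i _ ⟨z, rfl⟩

theorem Theory.pair_F (Y : T.Var) (n m : ℕ) (hY : T.S.IsProj Y) (h : n + m = 2 * T.S.dim Y)
    (x : T.H Y n) (y : T.H Y m) : T.P.pair Y n m (T.F Y n x) (T.F Y m y) =
      (q : K) ^ T.S.dim Y * T.P.pair Y n m x y := T.equi Y n m hY h x y

theorem Theory.pair_left (Y : T.Var) (n m : ℕ) (hY : T.S.IsProj Y) (h : n + m = 2 * T.S.dim Y)
    (x : T.H Y n) (hx : ∀ y, T.P.pair Y n m x y = 0) : x = 0 := (T.perfect Y n m hY h).1 x hx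

theorem Theory.pair_right (Y : T.Var) (n m : ℕ) (hY : T.S.IsProj Y) (h : n + m = 2 * T.S.dim Y)
    (y : T.H Y m) (hy : ∀ x, T.P.pair Y n m x y = 0) : y = 0 := (T.perfect Y n m hY h).2 y hy

theorem injective_of_inj {C : Cohomology K T.S} {X Y : T.Var} {n m : ℕ}
    {f : C.H X n →ₗ[K] C.H Y m} (h : C.Inj f) : Function.Injective f := by
  rw [← LinearMap.ker_eq_bot, LinearMap.ker_eq_bot']
  exact h

theorem equi_one {C : Cohomology K T.S} {X Y : T.Var} {n m : ℕ}
    {f : C.H X n →ₗ[K] C.H Y m} (h : C.Equi 1 f) (x : C.H X n) :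
    f (C.F X n x) = C.F Y m (f x) := by
  have := h x
  rw [one_smul] at this
  exact this.symm

/-- the hypothesis: on affine varieties of dimension `2i` invariant classes in degree `2i` vanish
generically -/
def Hyp (i : ℕ) : Prop := ∀ X : T.Var, T.S.IsAffine X → T.S.dim X = 2 * i →
  ∀ x : T.H X (2 * i), T.Invariant x → ∃ (U : T.Var) (j : T.S.Opn U X), T.C.res j (2 * i) x = 0

theorem hyp_iff (i : ℕ) : Hyp T i ↔ T.GenericVanishing i := by
  constructor
  · intro h X hX hd x hx
    exact h X hX hd x (Module.End.mem_eigenspace_iff.1 hx)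
  · intro h X hX hd x hx
    exact h X hX hd x (Module.End.mem_eigenspace_iff.2 hx)

theorem ss_zero (Y : T.Var) : T.SemisimpleAtOne Y 0 := by
  obtain ⟨m, hm, h⟩ := T.finiteOrder Y
  have h1 : (T.F Y 0).IsSemisimple := by
    refine Module.End.isSemisimple_of_squarefree_aeval_eq_zero
      (p := (Polynomial.X ^ m - 1 : Polynomial K)) ?_ ?_
    · exact (Polynomial.separable_X_pow_sub_C (1 : K) (by exact_mod_cast hm.ne')
        one_ne_zero).squarefree
    · simp [h]
  exact h1.isFinitelySemisimple.maxGenEigenspace_eq_eigenspace _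

theorem step (hq : (q : K) ≠ 0) (i : ℕ) : (∀ i', 1 ≤ i' → i' ≤ i → Hyp T i') →
    ∀ Y : T.Var, T.S.IsProj Y → T.S.dim Y = 2 * i → T.SemisimpleAtOne Y i := by
  induction i with
  | zero => intro _ Y _ _; exact ss_zero T Y
  | succ i ih =>
    intro hyp Y hY hdim
    replace ih := ih (fun i' h1 h2 => hyp i' h1 (by omega))
    refine SS.of_sq fun u hu => ?_
    -- an affine dense open subvariety
    obtain ⟨U, hU, ⟨j⟩⟩ := T.S.exists_affine Y
    set w := (T.F Y (2 * (i + 1)) - ((q : K) ^ (i + 1)) • 1) u with hw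
    have hwF : T.F Y (2 * (i + 1)) w = (q : K) ^ (i + 1) • w := by
      have h1 : T.F Y (2 * (i + 1)) w - (q : K) ^ (i + 1) • w = 0 := by
        rw [← hu]
        simp
      exact sub_eq_zero.1 h1
    obtain ⟨U1, j1, h1⟩ := hyp (i + 1) (by omega) le_rfl U hU ((T.S.dim_opn j).trans hdim)
      (T.C.res j _ w) (by
        unfold Theory.Invariant
        rw [← T.C.res_F, hwF, map_smul])
    obtain ⟨U2, hU2, ⟨j2⟩⟩ := T.S.exists_affine U1
    -- on `U2` the class `u` is invariant
    have h2 : T.C.res (T.S.comp j2 (T.S.comp j1 j)) _ w = 0 := by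
      rw [T.C.res_comp, T.C.res_comp, h1, map_zero]
    obtain ⟨U3, j3, h3⟩ := hyp (i + 1) (by omega) le_rfl U2 hU2
      ((T.S.dim_opn (T.S.comp j2 (T.S.comp j1 j))).trans hdim)
      (T.C.res (T.S.comp j2 (T.S.comp j1 j)) _ u) (by
        unfold Theory.Invariant
        rw [← T.C.res_F, ← map_smul, ← sub_eq_zero, ← map_sub]
        have : T.F Y (2 * (i + 1)) u - (q : K) ^ (i + 1) • u = w := by
          rw [hw]
          simp
        rw [this, h2])
    have h4 : T.C.res (T.S.comp j3 (T.S.comp j2 (T.S.comp j1 j))) _ u = 0 := by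
      rw [T.C.res_comp, h3]
    obtain ⟨D, hD, hDdim, γ, hγ, hker⟩ := T.gysin (T.S.comp j3 (T.S.comp j2 (T.S.comp j1 j))) (2 * i + 1)
      (2 * i) hY (by omega)
    obtain ⟨y, hy⟩ := hker u h4
    -- semisimplicity for `D`
    have hDss : T.SemisimpleAtOne D i := by
      obtain ⟨D', hD', hD'dim, hf⟩ := T.lefschetz D (2 * i) hD hDdim
      obtain ⟨f, hf1, hf2⟩ := hf (2 * i) le_rfl
      exact SS.of_injective f (injective_of_inj T hf1) (equi_one T hf2) (ih D' hD' hD'dim)
    have hgen : γ y ∈ (T.F Y (2 * i + 2)).maxGenEigenspace ((q : K) * (q : K) ^ i) := by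
      rw [hy, Module.End.mem_maxGenEigenspace]
      refine ⟨2, ?_⟩
      rw [pow_two, ← pow_succ']
      exact hu
    obtain ⟨y', hy'1, hy'2⟩ := gen_transfer γ hq hγ hDss y hgen
    have h5 : T.F Y (2 * (i + 1)) u = (q : K) ^ (i + 1) • u := by
      have h6 : u = γ y' := by rw [hy'2, hy]
      rw [h6]
      have := hγ y'
      change T.F Y (2 * i + 2) (γ y') = (q : K) • γ (T.F D (2 * i) y') at this
      rw [hy'1, map_smul, smul_smul, ← pow_succ'] at this
      exact this
    rw [hw]
    simp [h5]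

theorem ss_cast (hq : (q : K) ≠ 0) (hyp : ∀ i, 1 ≤ i → Hyp T i) (i : ℕ) (Y : T.Var)
    (hY : T.S.IsProj Y) (hdim : T.S.dim Y = 2 * i) (N : ℕ) (hN : N = 2 * i) :
    SS (T.F Y N) ((q : K) ^ i) := by
  subst hN
  exact step T hq i (fun i' h _ => hyp i' h) Y hY hdim

/-- duality -/
theorem ss_dual (hq : (q : K) ≠ 0) {Y : T.Var} (hY : T.S.IsProj Y) {i j : ℕ}
    (hij : i + j = T.S.dim Y) (hss : T.SemisimpleAtOne Y j) : T.SemisimpleAtOne Y i := by
  have hnm : 2 * i + 2 * j = 2 * T.S.dim Y := by omega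
  refine SS.of_sq fun x hx => ?_
  set w := (T.F Y (2 * i) - ((q : K) ^ i) • 1) x with hw
  have hwF : T.F Y (2 * i) w = (q : K) ^ i • w := by
    have h1 : T.F Y (2 * i) w - (q : K) ^ i • w = 0 := by
      rw [← hx]
      simp
    exact sub_eq_zero.1 h1
  have hw' : w = T.F Y (2 * i) x - (q : K) ^ i • x := by
    rw [hw]
    simp
  apply T.pair_left Y (2 * i) (2 * j) hY hnm
  intro y
  set S := T.F Y (2 * j) - ((q : K) ^ j) • (1 : Module.End K _) with hS
  obtain ⟨n2, h2⟩ := Filter.eventually_atTop.1 (LinearMap.eventually_isCompl_ker_pow_range_pow S)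
  have hC := h2 (n2 + 1) (by omega)
  obtain ⟨y1, hy1, y2, hy2, rfl⟩ :=
    Submodule.mem_sup.1 (hC.sup_eq_top ▸ Submodule.mem_top : y ∈ _)
  have hy1' : T.F Y (2 * j) y1 = (q : K) ^ j • y1 := by
    have h3 := (ker_pow_of_sq (T := S) (fun x hx => SS.sq hss x hx) (n2 + 1) y1 hy1).resolve_left
      (by omega)
    have h4 : T.F Y (2 * j) y1 - (q : K) ^ j • y1 = 0 := by
      rw [hS] at h3
      simpa using h3
    exact sub_eq_zero.1 h4
  obtain ⟨t, rfl⟩ := hy2
  rw [map_add, pow_succ']
  set y3 := (S ^ n2) t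
  change T.P.pair Y (2 * i) (2 * j) w y1 + T.P.pair Y (2 * i) (2 * j) w (S y3) = 0
  have h5 : S y3 = T.F Y (2 * j) y3 - (q : K) ^ j • y3 := by
    rw [hS]
    simp
  have h8 : T.P.pair Y (2 * i) (2 * j) w y1 = 0 := by
    rw [hw', map_sub, map_smul, LinearMap.sub_apply, LinearMap.smul_apply, smul_eq_mul]
    have h6 := T.pair_F Y (2 * i) (2 * j) hY hnm x y1
    rw [hy1', map_smul, smul_eq_mul, ← hij, add_comm i j, pow_add, mul_assoc] at h6
    have h7 := mul_left_cancel₀ (pow_ne_zero j hq) h6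
    rw [h7, sub_self]
  rw [h8, zero_add, h5, map_sub, map_smul, smul_eq_mul]
  have h6 := T.pair_F Y (2 * i) (2 * j) hY hnm w y3
  rw [hwF, map_smul, LinearMap.smul_apply, smul_eq_mul, ← hij, pow_add, mul_assoc] at h6
  have h7 := mul_left_cancel₀ (pow_ne_zero i hq) h6
  rw [h7, sub_self]

/-- semisimplicity in codimension `i` for all smooth projective varieties -/
theorem ss_proj (hq : (q : K) ≠ 0) (i : ℕ) (hyp : ∀ i', 1 ≤ i' → i' ≤ i → Hyp T i') (Y : T.Var)
    (hY : T.S.IsProj Y) : T.SemisimpleAtOne Y i := by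
  have h1 : ∀ d i' (Y : T.Var), i' ≤ i → T.S.IsProj Y → T.S.dim Y = d + 2 * i' →
      T.SemisimpleAtOne Y i' := by
    intro d
    induction d with
    | zero =>
      intro i' Y hi hY hdim
      exact step T hq i' (fun k h1 h2 => hyp k h1 (h2.trans hi)) Y hY (by omega)
    | succ d ih =>
      intro i' Y hi hY hdim
      obtain ⟨Y', hY', hdim', hf⟩ := T.lefschetz Y (d + 2 * i') hY (by omega)
      obtain ⟨f, hf1, hf2⟩ := hf (2 * i') (by omega)
      exact SS.of_injective f (injective_of_inj T hf1) (equi_one T hf2) (ih i' Y' hi hY' hdim')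
  rcases le_or_gt (2 * i) (T.S.dim Y) with h | h
  · exact h1 (T.S.dim Y - 2 * i) i Y le_rfl hY (by omega)
  rcases le_or_gt i (T.S.dim Y) with h2 | h2
  · refine ss_dual T hq hY (j := T.S.dim Y - i) (by omega) ?_
    exact h1 (T.S.dim Y - 2 * (T.S.dim Y - i)) (T.S.dim Y - i) Y (by omega) hY (by omega)
  · refine SS.of_sq fun x _ => ?_
    exact T.dimension Y (2 * i) hY (by omega) _

/-- Frobenius is semisimple on the cohomology of smooth projective varieties. -/
theorem semisimple (hq : (q : K) ≠ 0) (hyp : ∀ i, 1 ≤ i → Hyp T i) (Y : T.Var) (hY : T.S.IsProj Y) (n : ℕ) :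
    (T.F Y n).IsSemisimple := by
  rcases Nat.lt_or_ge (2 * T.S.dim Y) n with h | h
  · have h0 : T.F Y n = 0 := by
      ext x
      exact T.dimension Y n hY h _
    rw [h0]
    exact Module.End.isSemisimple_zero
  obtain ⟨m, hm⟩ := Nat.exists_eq_add_of_le h
  obtain ⟨Z, hZ, hZdim, hκ⟩ := T.kunneth Y Y hY hY
  obtain ⟨κ, hκ1, hκ2⟩ := hκ n m
  have hκ3 : ∀ t, TensorProduct.lift κ (TensorProduct.map (T.F Y n) (T.F Y m) t) =
      T.F Z (n + m) (TensorProduct.lift κ t) := by
    intro t
    induction t using TensorProduct.induction_on with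
    | zero => simp
    | tmul x y =>
      rw [TensorProduct.map_tmul, TensorProduct.lift.tmul, TensorProduct.lift.tmul]
      exact (hκ2 x y).symm
    | add a b ha hb => rw [map_add, map_add, ha, hb, map_add, map_add]
  have h1 : SS (T.F Z (n + m)) ((q : K) ^ T.S.dim Y) :=
    ss_cast T hq hyp (T.S.dim Y) Z hZ (by omega) (n + m) hm.symm
  exact isSemisimple_of_tensor (T.P.pair Y n m) (pow_ne_zero _ hq)
    (T.pair_F Y n m hY hm.symm) (T.pair_left Y n m hY hm.symm) (T.pair_right Y n m hY hm.symm)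
    (SS.of_injective (TensorProduct.lift κ) hκ1 hκ3 h1)

theorem ss_of_semisimple {Y : T.Var} {n : ℕ} (h : (T.F Y n).IsSemisimple) (μ : K) :
    SS (T.F Y n) μ :=
  h.isFinitelySemisimple.maxGenEigenspace_eq_eigenspace μ

/-- generalised invariants on an open subvariety of a projective variety lift to invariants -/
theorem lift_open {U Y : T.Var} (j : T.S.Opn U Y) (hY : T.S.IsProj Y) (i : ℕ)
    (hss : T.SemisimpleAtOne Y i) (x : T.H U (2 * i))
    (hx : x ∈ (T.F U (2 * i)).maxGenEigenspace ((q : K) ^ i)) :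
    ∃ y, T.Invariant (X := Y) y ∧ T.C.res j (2 * i) y = x := by
  obtain ⟨y, hy⟩ := T.weights j hY i x hx
  obtain ⟨y', h1, h2⟩ := gen_transfer (T.C.res j (2 * i)) (one_ne_zero (α := K)) (fun x => by
    rw [one_smul, T.C.res_F]) hss y (by rw [hy, one_mul]; exact hx)
  exact ⟨y', h1, h2.trans hy⟩

/-- semisimplicity for projective varieties implies it for all smooth varieties -/
theorem q2_of_semisimple (i : ℕ) (h : ∀ Y, T.S.IsProj Y → T.SemisimpleAtOne Y i) (X : T.Var) :
    T.SemisimpleAtOne X i := by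
  obtain ⟨X', Y, hY, ⟨j⟩, f, hf1, hf2, -⟩ := T.alteration X
  refine SS.of_injective (f (2 * i)) (injective_of_inj T (hf1 _)) (equi_one T (hf2 _)) ?_
  refine SS.of_sq fun x hx => ?_
  have hx' : x ∈ (T.F X' (2 * i)).maxGenEigenspace ((q : K) ^ i) := by
    rw [Module.End.mem_maxGenEigenspace]
    exact ⟨2, by rw [pow_two]; exact hx⟩
  obtain ⟨y, hy, rfl⟩ := lift_open T j hY i (h Y hY) x hx'
  unfold Theory.Invariant at hy
  have : T.F X' (2 * i) (T.C.res j (2 * i) y) = (q : K) ^ i • T.C.res j (2 * i) y := by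
    rw [← T.C.res_F, hy, map_smul]
  simp [this]

/-- surjectivity for projective varieties and semisimplicity imply surjectivity -/
theorem surj_of_proj (i : ℕ) (h : ∀ Y, T.S.IsProj Y → T.SemisimpleAtOne Y i)
    (hs : ∀ Y, T.S.IsProj Y → T.Surj Y i) (X : T.Var) : T.Surj X i := by
  intro x hx
  rw [Module.End.mem_eigenspace_iff] at hx
  obtain ⟨X', Y, hY, ⟨j⟩, f, hf1, hf2, hf3⟩ := T.alteration X
  apply hf3
  have hx' : f (2 * i) x ∈ (T.F X' (2 * i)).maxGenEigenspace ((q : K) ^ i) := by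
    rw [Module.End.mem_maxGenEigenspace]
    refine ⟨1, ?_⟩
    have : T.F X' (2 * i) (f (2 * i) x) = (q : K) ^ i • f (2 * i) x := by
      rw [← equi_one T (hf2 _), hx, map_smul]
    simp [this]
  obtain ⟨y, hy, hyx⟩ := lift_open T j hY i (h Y hY) _ hx'
  obtain ⟨z, rfl⟩ := hs Y hY (Module.End.mem_eigenspace_iff.2 hy)
  rw [← hyx]
  exact T.c_res j i z

theorem hyp_of_surj (i : ℕ) (hi : 1 ≤ i)
    (h : ∀ X : T.Var, T.S.IsAffine X → T.S.dim X = 2 * i → T.Surj X i) : Hyp T i := by
  intro X hX hdim x hx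
  obtain ⟨z, rfl⟩ := h X hX hdim (Module.End.mem_eigenspace_iff.2 hx)
  exact T.c_vanish X i hi z

/-- homological and numerical equivalence -/
theorem hom_num (hq : (q : K) ≠ 0) {Y : T.Var} (hY : T.S.IsProj Y) {i j : ℕ}
    (hij : i + j = T.S.dim Y) (hss : T.SemisimpleAtOne Y j) (hs : T.Surj Y j)
    (z : K ⊗[ℚ] T.Z.CH Y i)
    (hz : ∀ w : T.Z.CH Y j, T.P.pair Y (2 * i) (2 * j) (T.c Y i z) (T.c Y j (1 ⊗ₜ w)) = 0) :
    T.c Y i z = 0 := by
  have hnm : 2 * i + 2 * j = 2 * T.S.dim Y := by omega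
  apply T.pair_left Y (2 * i) (2 * j) hY hnm
  -- orthogonality to all algebraic classes
  have h1 : ∀ w : K ⊗[ℚ] T.Z.CH Y j, T.P.pair Y (2 * i) (2 * j) (T.c Y i z) (T.c Y j w) = 0 := by
    intro w
    induction w using TensorProduct.induction_on with
    | zero => simp
    | tmul a w =>
      have : a ⊗ₜ[ℚ] w = a • ((1 : K) ⊗ₜ[ℚ] w) := by
        rw [TensorProduct.smul_tmul', smul_eq_mul, mul_one]
      rw [this, map_smul, map_smul, hz, smul_zero]
    | add a b ha hb => rw [map_add, map_add, ha, hb, add_zero]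
  intro y
  -- decomposition
  set S := T.F Y (2 * j) - ((q : K) ^ j) • (1 : Module.End K _) with hS
  obtain ⟨n2, h2⟩ := Filter.eventually_atTop.1 (LinearMap.eventually_isCompl_ker_pow_range_pow S)
  have hC := h2 (n2 + 1) (by omega)
  obtain ⟨y1, hy1, y2, hy2, rfl⟩ :=
    Submodule.mem_sup.1 (hC.sup_eq_top ▸ Submodule.mem_top : y ∈ _)
  have hy1' : T.Invariant y1 := by
    have h3 := (ker_pow_of_sq (T := S) (fun x hx => SS.sq hss x hx) (n2 + 1) y1 hy1).resolve_left
      (by omega)
    have h4 : T.F Y (2 * j) y1 - (q : K) ^ j • y1 = 0 := by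
      rw [hS] at h3
      simpa using h3
    exact sub_eq_zero.1 h4
  obtain ⟨w1, hw1⟩ := hs (Module.End.mem_eigenspace_iff.2 hy1')
  obtain ⟨t, rfl⟩ := hy2
  rw [map_add, ← hw1, h1, zero_add, pow_succ']
  set y3 := (S ^ n2) t
  change T.P.pair Y (2 * i) (2 * j) (T.c Y i z) (S y3) = 0
  have h5 : S y3 = T.F Y (2 * j) y3 - (q : K) ^ j • y3 := by
    rw [hS]
    simp
  rw [h5, map_sub, map_smul, smul_eq_mul]
  have h6 := T.pair_F Y (2 * i) (2 * j) hY hnm (T.c Y i z) y3
  rw [T.F_c, map_smul, LinearMap.smul_apply, smul_eq_mul, ← hij, pow_add, mul_assoc] at h6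
  have h7 := mul_left_cancel₀ (pow_ne_zero i hq) h6
  rw [h7, sub_self]

end

end Pool.Agent.W515.OpenTate
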